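import Pool.Agent.H.MP_119a45_an.C

set_option autoImplicit false

namespace Pool.Agent.Results.MP_119a45_an.Yes

open MeasureTheory Metric
open scoped ComplexConjugate

/-- normalised area measure on the unit disc -/
noncomputable def dA : Measure ℂ := (ENNReal.ofReal Real.pi)⁻¹ • volume.restrict (ball 0 1)

/-- square integrable polyanalytic functions of order `n` on the disc -/
def PA (n : ℕ) : Set (Lp ℂ 2 dA) :=
  {u | ∃ H : Fin n → ℂ → ℂ, (∀ l, DifferentiableOn ℂ (H l) (ball 0 1)) ∧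
    u =ᵐ[dA] fun z => ∑ l : Fin n, conj z ^ (l : ℕ) * H l z}

/-- orthogonal projection onto the closed linear span of a set -/
noncomputable def proj {E : Type} [NormedAddCommGroup E] [InnerProductSpace ℂ E] [CompleteSpace E]
    (S : Set E) (x : E) : E := (Submodule.span ℂ S).topologicalClosure.starProjection x

/-- Toeplitz operators -/
noncomputable def T (n : ℕ) (f : Lp ℂ ⊤ dA) (h : Lp ℂ 2 dA) : Lp ℂ 2 dA := proj (PA n) (f • h)

/-- radial symbols -/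
def Radial (f : Lp ℂ ⊤ dA) : Prop := ∃ φ : ℝ → ℂ, f =ᵐ[dA] fun z => φ ‖z‖

/-- the values of `F` on `S` span a finite dimensional space -/
def FinRank {E : Type} [AddCommGroup E] [Module ℂ E] (S : Set E) (F : E → E) : Prop :=
  FiniteDimensional ℂ (Submodule.span ℂ (F '' S))

open Pool.Agent.H.MP_119a45_an
open scoped InnerProductSpace

theorem c0 : (ENNReal.ofReal Real.pi)⁻¹ ≠ 0 := by simp
theorem c1 : (ENNReal.ofReal Real.pi)⁻¹ ≠ ⊤ := by simpa using Real.pi_pos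

theorem ae_dA : ae dA = ae mu := Measure.ae_ennreal_smul_measure_eq c0 _

theorem int_dA (F : ℂ → ℂ) : ∫ z, F z ∂dA = (Real.pi : ℂ)⁻¹ * ∫ z, F z ∂mu := by
  rw [dA, integral_smul_measure, ENNReal.toReal_inv, ENNReal.toReal_ofReal Real.pi_pos.le,
    Complex.real_smul, Complex.ofReal_inv]
  rfl

theorem ig {F : ℂ → ℂ} : Integrable F dA ↔ Integrable F mu := integrable_smul_measure c0 c1

theorem fin_dA : IsFiniteMeasure dA :=
  ⟨ENNReal.mul_lt_top c1.lt_top (measure_lt_top mu Set.univ)⟩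

theorem igf (f : Lp ℂ ⊤ dA) : Integrable f mu :=
  have := fin_dA
  ig.1 ((Lp.memLp f).integrable le_top)

theorem pv {n : ℕ} (k : ℕ) (c : Fin n → ℂ) : ∃ v ∈ PA n,
    v =ᵐ[mu] fun z => z ^ k * ∑ m, c m * (z * conj z) ^ (m : ℕ) := by
  have := fin_dA
  have h : Continuous fun z : ℂ => z ^ k * ∑ m, c m * (z * conj z) ^ (m : ℕ) := by fun_prop
  obtain ⟨C, hC⟩ := (isCompact_closedBall (0 : ℂ) 1).exists_bound_of_continuousOn h.continuousOn
  have h1 := MemLp.of_bound (p := 2) (μ := dA) h.aestronglyMeasurable C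
    (ae_dA ▸ mu_ae.mono fun z hz => hC z (by simpa using hz.le))
  refine ⟨h1.toLp, ⟨fun m z => c m * z ^ (k + m), fun _ => by fun_prop,
    h1.coeFn_toLp.mono fun z hz => ?_⟩, ae_dA ▸ h1.coeFn_toLp⟩
  rw [hz]
  simp only [Finset.mul_sum]
  exact Finset.sum_congr rfl fun m _ => by ring

theorem ev {n : ℕ} (hn : 1 ≤ n) (k : ℕ) : ∃ v ∈ PA n, v =ᵐ[mu] fun z => z ^ k := by
  obtain ⟨v, h1, h2⟩ := pv k (Pi.single (⟨0, hn⟩ : Fin n) 1)
  exact ⟨v, h1, h2.mono fun z hz => by simp [hz, Pi.single_apply]⟩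

theorem sm (f : Lp ℂ ⊤ dA) (v : Lp ℂ 2 dA) :
    (f • v : Lp ℂ 2 dA) =ᵐ[mu] fun z => f z * v z := ae_dA ▸ Lp.coeFn_lpSMul f v

theorem st (f : Lp ℂ ⊤ dA) : (star f : Lp ℂ ⊤ dA) =ᵐ[mu] fun z => conj (f z) :=
  ae_dA ▸ Lp.coeFn_star f

theorem inn (u v : Lp ℂ 2 dA) : ⟪u, v⟫_ℂ = (Real.pi : ℂ)⁻¹ * ∫ z, v z * conj (u z) ∂mu :=
  int_dA _

theorem adj (f : Lp ℂ ⊤ dA) (u v : Lp ℂ 2 dA) :
    ⟪(star f • u : Lp ℂ 2 dA), v⟫_ℂ = ⟪u, (f • v : Lp ℂ 2 dA)⟫_ℂ := by
  rw [inn, inn]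
  congr 1
  refine integral_congr_ae ?_
  filter_upwards [sm (star f) u, sm f v, st f] with z h1 h2 h3
  rw [h1, h2, h3, map_mul, Complex.conj_conj]; ring

theorem mem {n : ℕ} {v : Lp ℂ 2 dA} (h : v ∈ PA n) :
    v ∈ (Submodule.span ℂ (PA n)).topologicalClosure :=
  Submodule.le_topologicalClosure _ (Submodule.subset_span h)

theorem ip {n : ℕ} {v : Lp ℂ 2 dA} (h : v ∈ PA n) (u : Lp ℂ 2 dA) :
    ⟪v, proj (PA n) u⟫_ℂ = ⟪v, u⟫_ℂ := by
  rw [proj, ← Submodule.inner_starProjection_left_eq_right,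
    Submodule.starProjection_eq_self_iff.2 (mem h)]

theorem sol {n k : ℕ} {f : Lp ℂ ⊤ dA} (hr : Rad f) (h : Hk (Ph f) n k ≠ 0) {e : Lp ℂ 2 dA}
    (h1 : e ∈ PA n) (h2 : e =ᵐ[mu] fun z => z ^ (k + 2)) : ∃ v ∈ PA n, T n f v = e := by
  obtain ⟨c, hc⟩ := solve (igf f) h
  obtain ⟨v, h3, h4⟩ := pv (k + 2) c
  refine ⟨v, h3, Submodule.eq_starProjection_of_mem_of_inner_eq_zero (mem h1) fun u hu => ?_⟩
  rw [← neg_sub, inner_neg_left, neg_eq_zero]
  refine Submodule.topologicalClosure_minimal (t := LinearMap.ker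
    (innerSL ℂ (e - (f • v : Lp ℂ 2 dA))).toLinearMap) _ (Submodule.span_le.2 ?_)
    (ContinuousLinearMap.isClosed_ker _) hu
  rintro u ⟨H, h5, h6⟩
  set ρ : ℂ → ℂ := fun z => 1 - f z * ∑ m, c m * (z * conj z) ^ (m : ℕ) with hρ
  have h7 : (fun z => u z * conj ((e - (f • v : Lp ℂ 2 dA)) z)) =ᵐ[mu]
      fun z => conj (ρ z) * (conj z ^ (k + 2) * u z) := by
    filter_upwards [sm f v, h2, h4, ae_dA ▸ Lp.coeFn_sub e (f • v)] with z a1 a2 a3 a4
    rw [a4, Pi.sub_apply, a1, a2, a3, hρ]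
    simp only [map_sub, map_mul, map_pow, map_one]; ring
  have h8 : Integrable ρ mu := (integrable_const _).sub (int_mul (igf f) (by fun_prop))
  refine (inn _ u).trans (mul_eq_zero_of_right _ ((integral_congr_ae h7).trans
    (orth (ρ := fun z => conj (ρ z)) (Complex.conjCLE.integrable_comp_iff.2 h8) ?_
      (fun l hl => ?_) h5 (ae_dA ▸ h6)
      ((ig.1 (L2.integrable_inner (𝕜 := ℂ) (e - (f • v : Lp ℂ 2 dA)) u)).congr h7))))
  · obtain ⟨φ, hφ⟩ := hr
    refine ⟨fun r => conj (1 - φ r * ∑ m, c m * ((r : ℂ) ^ 2) ^ (m : ℕ)), hφ.mono fun z hz => ?_⟩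
    simp only [hρ, hz, Complex.mul_conj']
  · rw [← map_zero conj, ← hc l hl, mo, mo, ← integral_conj]
    congr 1; funext z
    simp only [hρ, map_mul, map_pow, Complex.conj_conj]; ring

theorem dep {E : Type} [NormedAddCommGroup E] [InnerProductSpace ℂ E] (R : Submodule ℂ E)
    [FiniteDimensional ℂ R] (w v : Fin (Module.finrank ℂ R + 1) → E) (hw : ∀ i, w i ∈ R)
    {c : ℂ} (hc : c ≠ 0) {M : Fin (Module.finrank ℂ R + 1) → Fin (Module.finrank ℂ R + 1) → ℂ}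
    (h : ∀ i j, c * M i j = ⟪v j, w i⟫_ℂ) : (Matrix.of M).det = 0 := by
  obtain ⟨g, h1, i, h2⟩ := Fintype.not_linearIndependent_iff.1
    (fun h : LinearIndependent ℂ fun i => (⟨w i, hw i⟩ : R) => by
      simpa using h.fintype_card_le_finrank)
  refine Matrix.exists_vecMul_eq_zero_iff.1 ⟨g, fun h0 => h2 (congrFun h0 i), funext fun j =>
    mul_left_cancel₀ hc ?_⟩
  have := congrArg (fun x : R => ⟪v j, (x : E)⟫_ℂ) h1
  simpa [inner_sum, inner_smul_right, ← h, Matrix.vecMul, dotProduct, Finset.mul_sum,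
    mul_left_comm] using this

theorem result (n : ℕ) (hn : 1 ≤ n) (f g : Lp ℂ ⊤ dA) (h : Radial f ∨ Radial g)
    (hr : FinRank (PA n) fun u => T n f (T n g u)) : f = 0 ∨ g = 0 := by
  have h0 : ∀ f : Lp ℂ ⊤ dA, f =ᵐ[mu] 0 → f = 0 := fun f hf =>
    Lp.eq_zero_iff_ae_eq_zero.2 (ae_dA ▸ hf)
  choose e h1 h2 using ev hn
  have h3 : ∀ (f : Lp ℂ ⊤ dA) a k, (Real.pi : ℂ)⁻¹ * mo f a k = ⟪e k, T n f (e a)⟫_ℂ := fun f a k => by
    rw [T, ip (h1 k), inn]
    congr 1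
    refine integral_congr_ae ?_
    filter_upwards [sm f (e a), h2 a, h2 k] with z a1 a2 a3
    rw [a1, a2, a3, map_pow, mul_assoc]
  have hp : (Real.pi : ℂ)⁻¹ ≠ 0 := by simpa using Real.pi_ne_zero
  unfold FinRank at hr
  set N := Module.finrank ℂ (Submodule.span ℂ ((fun u => T n f (T n g u)) '' PA n))
  rcases h with ⟨φ, h⟩ | ⟨φ, h⟩
  · have h4 : Rad (star f : Lp ℂ ⊤ dA) := ⟨fun r => conj (φ r), by
      filter_upwards [st f, ae_dA ▸ h] with z a1 a2
      rw [a1, a2]⟩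
    rcases ((Ph_BH (igf (star f))).hk n).uniq with h5 | h5
    · refine .inl (h0 f ?_)
      filter_upwards [st f, degen (igf _) h4 h5] with z a1 a2
      simpa [a1] using a2
    refine .inr (h0 g (extend (N := N) (igf g) h5 fun a k _ hk => ?_))
    choose v h6 h7 using fun j => sol h4 (hk j) (h1 _) (h2 _)
    refine dep _ (fun i => T n f (T n g (e (a i + 2)))) v
      (fun i => Submodule.subset_span ⟨_, h1 _, rfl⟩) hp fun i j => ?_
    rw [h3, ← h7 j]
    refine (Submodule.inner_starProjection_left_eq_right _ _ _).trans ?_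
    rw [adj]
    refine Eq.trans ?_ (ip (h6 j) _).symm
    exact congrArg (fun x : Lp ℂ 2 dA => ⟪v j, (f • x : Lp ℂ 2 dA)⟫_ℂ)
      (Submodule.starProjection_eq_self_iff.2 (Submodule.starProjection_apply_mem _ _))
  · have h4 : Rad g := ⟨φ, ae_dA ▸ h⟩
    rcases ((Ph_BH (igf g)).hk n).uniq with h5 | h5
    · exact .inr (h0 g (degen (igf _) h4 h5))
    refine .inl (h0 f (extend (N := N) (igf f) h5 fun a k ha _ => ?_))
    choose v h6 h7 using fun j => sol h4 (ha j) (h1 _) (h2 _)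
    refine dep _ (fun i => T n f (T n g (v i))) (fun j => e (k j + 2))
      (fun i => Submodule.subset_span ⟨_, h6 _, rfl⟩) hp fun i j => ?_
    rw [h3, h7]

end Pool.Agent.Results.MP_119a45_an.Yes
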